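import Pool.Agent.W2helper5.KA.Stm2

/-!
# Piece DBL of project KA2
-/

set_option autoImplicit false

namespace Pool.Agent.W2helper52.KA2

open Pool.Agent.W2helper5.KA2

theorem conj_pow {G : Type} [Group G] (g : G) (n : ℕ) : (g ^ n)⁻¹ * g * g ^ n = g := by
  rw [mul_assoc, ← pow_succ', pow_succ, ← mul_assoc, inv_mul_cancel, one_mul]

theorem theta_pow {G M : Type} [Group G] [CommGroup M] (ω : G → G → G → M) (g : G) (n : ℕ) :
    θ ω g (g ^ n) g = ω g (g ^ n) g := by
  rw [θ, ← pow_succ, conj_pow, conj_pow, mul_div_assoc, div_self', mul_one]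

theorem prod_period {M : Type} [CommMonoid M] (f : ℕ → M) (N : ℕ) (hf : ∀ i q, f (q * N + i) = f i)
    (q : ℕ) : ∏ i ∈ Finset.range (q * N), f i = (∏ i ∈ Finset.range N, f i) ^ q := by
  induction q with
  | zero => simp
  | succ q ih =>
    rw [Nat.succ_mul, Finset.prod_range_add, ih, pow_succ]
    congr 1
    exact Finset.prod_congr rfl fun i _ => hf i q

theorem DBL : P_DBL := by
  intro K G _ _ _ _ ω hω E _ _ b hb hord
  have key : ∀ n : ℕ, (∑ g, b (g, g)) ^ n =
      ∑ g, (((∏ i ∈ Finset.range n, ω g (g ^ i) g : Kˣ)) : K) • b (g, g ^ n) := by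
    intro n
    induction n with
    | zero =>
      rw [pow_zero, hb.one]
      refine Finset.sum_congr rfl fun g _ => ?_
      rw [Finset.prod_range_zero, Units.val_one, one_smul, pow_zero]
    | succ n ih =>
      rw [pow_succ, ih, Finset.sum_mul]
      refine Finset.sum_congr rfl fun g _ => ?_
      rw [Finset.mul_sum, Finset.sum_eq_single g]
      · rw [smul_mul_assoc, hb.mul, conj_pow, if_pos rfl, theta_pow, smul_smul,
          Finset.prod_range_succ, Units.val_mul, ← pow_succ]
      · intro h _ hne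
        rw [smul_mul_assoc, hb.mul, conj_pow, if_neg (Ne.symm hne), smul_zero]
      · intro h
        exact absurd (Finset.mem_univ g) h
  rw [key, hb.one]
  refine Finset.sum_congr rfl fun g _ => ?_
  have h1 : ∏ i ∈ Finset.range (Fintype.card G), ω g (g ^ i) g = 1 := by
    obtain ⟨t, ht⟩ := hord g
    have h2 : Fintype.card G = (orderOf (z ω g) * t) * orderOf g := by rw [ht]; ring
    rw [h2, prod_period (fun i => ω g (g ^ i) g) (orderOf g)]
    · show z ω g ^ (orderOf (z ω g) * t) = 1
      rw [pow_mul, pow_orderOf_eq_one, one_pow]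
    · intro i q
      rw [pow_add, mul_comm q, pow_mul, pow_orderOf_eq_one, one_pow, one_mul]
  rw [h1, Units.val_one, one_smul, pow_card_eq_one]

end Pool.Agent.W2helper52.KA2
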